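import Pool.Agent.V5helper57.NFld.Tot

/-!
# The model of the products over a number field
-/

set_option autoImplicit false

namespace Pool.Agent.V5helper57.NFld

open Finset Filter NumberField IsDedekindDomain Q282.NF Pool.Agent.Y722.HS
open Pool.Agent.H921R2.TatePole (below deg nm nm_eq)
open Pool.Agent.X280.BP (EM_sub' EM_const' EM_mul' EM_abs_le summable_three vv vv_eq LL LL_nonneg LL_mono LL_Lg Lg SS Sys)
open Pool.Agent.V5helper57.Win (Ico_prime_split LL_split Model)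

variable {K : Type} [Field K] [NumberField K]

/-- The parameters with the coordinates `c`. -/
noncomputable def Cc (r : ℕ) {d : ℕ} (b : Fin d → 𝓞 K) (c : Fin (r + 3) × Fin d → ℤ) : 𝓞 K × 𝓞 K × 𝓞 K :=
  family r (combine b (fun i j => c (i, j)))

theorem PP_eq (X : ℕ) : Q282.BP.PP X = (Ico 0 (X + 1)).filter Nat.Prime := by
  unfold Q282.BP.PP
  ext p
  rw [mem_filter, mem_filter, mem_Icc, mem_Ico]
  constructor
  · rintro ⟨⟨_, h2⟩, h3⟩
    exact ⟨⟨Nat.zero_le _, by omega⟩, h3⟩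
  · rintro ⟨⟨_, h2⟩, h3⟩
    exact ⟨⟨h3.one_lt.le, by omega⟩, h3⟩

/-- The sum over the degrees. -/
theorem hT_red (r : ℕ) {d : ℕ} (b : Fin d → 𝓞 K) {p : ℕ} (hp : p.Prime) (c : Fin (r + 3) × Fin d → ℤ) :
    hT r b p (red p c) = ∑ f ∈ Icc 1 (Module.finrank ℚ K), hd f p (Cc r b c) := by
  classical
  have h1 : ∀ f, hd f p (Cc r b c) = ∑ v : Fb K (prm p hp), if deg v.1 = f then hv v.1 (Cc r b c) else 0 := by
    intro f
    unfold hd
    rw [dif_pos hp]
    rfl
  simp only [h1]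
  rw [sum_comm]
  unfold hT
  rw [dif_pos hp]
  refine sum_congr rfl fun v _ => ?_
  have hvp : (below v.1 : ℕ) = p := by rw [v.2]; rfl
  rw [XX_red r b v.1 hvp c, sum_ite_eq, if_pos]
  · rfl
  · rw [mem_Icc]
    exact ⟨(nm_eq v.1).2.1, deg_le v.1⟩

/-- The primes of higher degree. -/
theorem hd_le2 {f : ℕ} (hf : 2 ≤ f) {p : ℕ} (hp : p.Prime) (C : 𝓞 K × 𝓞 K × 𝓞 K) :
    |hd f p C| ≤ Module.finrank ℚ K * (6 / p) := by
  unfold hd
  rw [dif_pos hp]
  show |fib f (prm p hp) C| ≤ _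
  unfold fib
  have hp0 : (0 : ℝ) < p := by exact_mod_cast hp.pos
  have hp1 : (1 : ℝ) ≤ p := by exact_mod_cast hp.one_le
  refine fiber_bd (prm p hp) _ (by positivity) fun v => ?_
  split_ifs with h
  · refine (hv_le v.1 C).trans ?_
    have hvp : (below v.1 : ℕ) = p := by rw [v.2]; rfl
    refine div_le_div_of_nonneg_left (by norm_num) hp0 ?_
    apply Real.le_sqrt_of_sq_le
    rw [norm_eq, hvp, h]
    push_cast
    exact pow_le_pow_right₀ hp1 hf
  · rw [abs_zero]
    positivity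

/-- The primes between a root of `X` and `X`. -/
theorem LL_rt {f : ℕ} (hf : 1 ≤ f) : ∃ C : ℝ, 0 ≤ C ∧ ∀ X : ℕ, LL (rt f X + 1) (X + 1) ≤ C := by
  obtain ⟨C1, hC1, h⟩ := LL_Lg
  have hf0 : (1 : ℝ) ≤ 2 * f := by
    have : (1 : ℝ) ≤ f := by exact_mod_cast hf
    linarith
  refine ⟨LL 0 (3 ^ f + 1) + 2 * C1 + Real.log (2 * f), by
    have := LL_nonneg 0 (3 ^ f + 1)
    have := Real.log_nonneg hf0
    positivity, fun X => ?_⟩
  obtain ⟨y, hy⟩ : ∃ y, y = rt f X := ⟨_, rfl⟩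
  have hyX : y ≤ X := by
    have h1 : y ^ f ≤ X := by rw [hy]; exact (le_rt hf).1 le_rfl
    exact (Nat.le_self_pow (by omega) y).trans h1
  have hX : X < (y + 1) ^ f := by
    by_contra hcon
    push Not at hcon
    have := (le_rt hf).2 hcon
    rw [← hy] at this
    omega
  rw [← hy]
  have hlog0 := Real.log_nonneg hf0
  have hLL3 := LL_nonneg 0 (3 ^ f + 1)
  have hsplit := LL_split (show y + 1 ≤ X + 1 by omega)
  have hLLy := LL_nonneg 0 (y + 1)
  rcases lt_or_ge y 3 with h3 | h3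
  · have h4 : X ≤ 3 ^ f := by
      have : (y + 1) ^ f ≤ 3 ^ f := Nat.pow_le_pow_left (by omega) f
      omega
    have h5 : LL 0 (X + 1) ≤ LL 0 (3 ^ f + 1) := LL_mono 0 (by omega)
    linarith
  · have h4 := (abs_le.1 (h X (h3.trans hyX))).2
    have h5 := (abs_le.1 (h y h3)).1
    have hy0 : (3 : ℝ) ≤ y := by exact_mod_cast h3
    have hX0 : (3 : ℝ) ≤ X := by exact_mod_cast h3.trans hyX
    have hly : 0 < Real.log y := Real.log_pos (by linarith)
    have hlX : 0 < Real.log X := Real.log_pos (by linarith)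
    have h6 : Real.log X ≤ 2 * f * Real.log y := by
      have h7 : (X : ℝ) ≤ (y : ℝ) ^ (2 * f) := by
        have h8 : (X : ℝ) ≤ ((y : ℝ) + 1) ^ f := by exact_mod_cast hX.le
        refine h8.trans ?_
        rw [pow_mul]
        apply pow_le_pow_left₀ (by positivity)
        nlinarith
      have h9 := Real.log_le_log (by linarith) h7
      rw [Real.log_pow] at h9
      push_cast at h9
      exact h9
    have h7 : Lg X - Lg y ≤ Real.log (2 * f) := by
      unfold Lg
      rw [← Real.log_div hlX.ne' hly.ne']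
      apply Real.log_le_log (by positivity)
      rw [div_le_iff₀ hly]
      exact h6
    linarith

/-- The number of the primes of degree one on average. -/
theorem nu_LL (K : Type) [Field K] [NumberField K] : ∃ M : ℝ, 0 ≤ M ∧ ∀ X : ℕ,
    |∑ p ∈ (Ico 0 (X + 1)).filter Nat.Prime, nu K p / p - LL 0 (X + 1)| ≤ M := by
  obtain ⟨M1, hM1, h1⟩ := nu_sum K
  obtain ⟨C1, hC1, h2⟩ := LL_Lg
  refine ⟨M1 + C1 + ∑ p ∈ (Ico 0 3).filter Nat.Prime, nu K p / p + LL 0 3, ?_, fun X => ?_⟩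
  · have h3 : 0 ≤ ∑ p ∈ (Ico 0 3).filter Nat.Prime, nu K p / p := sum_nonneg fun p _ => by unfold nu; positivity
    have := LL_nonneg 0 3
    positivity
  · have h3 : 0 ≤ ∑ p ∈ (Ico 0 3).filter Nat.Prime, nu K p / p := sum_nonneg fun p _ => by unfold nu; positivity
    have h4 := LL_nonneg 0 3
    rcases lt_or_ge X 3 with h | h
    · have h5 : ∑ p ∈ (Ico 0 (X + 1)).filter Nat.Prime, nu K p / p ≤ ∑ p ∈ (Ico 0 3).filter Nat.Prime, nu K p / p := by
        refine sum_le_sum_of_subset_of_nonneg ?_ fun p _ _ => by unfold nu; positivity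
        exact filter_subset_filter _ (Ico_subset_Ico_right (by omega))
      have h6 : LL 0 (X + 1) ≤ LL 0 3 := LL_mono 0 (by omega)
      have h7 : 0 ≤ ∑ p ∈ (Ico 0 (X + 1)).filter Nat.Prime, nu K p / p := sum_nonneg fun p _ => by unfold nu; positivity
      have h8 := LL_nonneg 0 (X + 1)
      rw [abs_le]
      constructor <;> linarith
    · have h5 := h1 X h
      have h6 := h2 X h
      rw [PP_eq] at h5
      unfold Lg at h6
      rw [abs_le] at h5 h6 ⊢
      constructor <;> linarith [h5.1, h5.2, h6.1, h6.2]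

/-- **The model.** -/
theorem model (K : Type) [Field K] [NumberField K] (r : ℕ) (hr : r ≤ 2) (b : Fin (Module.finrank ℚ K) → 𝓞 K)
    (hb : ∀ x : 𝓞 K, ∃ a : Fin (Module.finrank ℚ K) → ℤ, x = ∑ j, (a j : 𝓞 K) * b j) :
    ∃ K0 K1 : ℝ, Model (ZT r b) (12 * Module.finrank ℚ K) (r + 1 / 2) K0 K1
      (fun X c => Real.log (product (Cc r b c) X)) := by
  classical
  obtain ⟨B, hB0, hB⟩ := T_moments K r hr
  obtain ⟨M, hM0, hM⟩ := nu_LL K
  obtain ⟨S, hS⟩ : ∃ S : ℝ, S = ∑' n : ℕ, 1 / ((n : ℝ) * √n) := ⟨_, rfl⟩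
  have hS0 : 0 ≤ S := by rw [hS]; exact tsum_nonneg fun n => by positivity
  have hSle : ∀ s : Finset ℕ, ∑ p ∈ s, 1 / ((p : ℝ) * √p) ≤ S := fun s => by
    rw [hS]; exact summable_three.sum_le_tsum _ fun n _ => by positivity
  obtain ⟨D, hD⟩ : ∃ D : ℝ, D = Module.finrank ℚ K := ⟨_, rfl⟩
  have hD1 : 1 ≤ D := by
    rw [hD]
    exact_mod_cast (Module.finrank_pos : 0 < Module.finrank ℚ K)
  have hrt : ∀ f : ℕ, ∃ C : ℝ, 0 ≤ C ∧ (1 ≤ f → ∀ X : ℕ, LL (rt f X + 1) (X + 1) ≤ C) := by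
    intro f
    by_cases hf : 1 ≤ f
    · obtain ⟨C, h1, h2⟩ := LL_rt hf
      exact ⟨C, h1, fun _ => h2⟩
    · exact ⟨0, le_rfl, fun h => absurd h hf⟩
  choose Cf hCf0 hCf using hrt
  have hmuLL : ∀ X : ℕ, |∑ p ∈ (Ico 0 (X + 1)).filter Nat.Prime, muT r b p - (r + 1 / 2) * LL 0 (X + 1)| ≤
      B * S + (r + 1 / 2) * M := by
    intro X
    have h1 : |∑ p ∈ (Ico 0 (X + 1)).filter Nat.Prime, muT r b p -
        (r + 1 / 2) * ∑ p ∈ (Ico 0 (X + 1)).filter Nat.Prime, nu K p / p| ≤ B * S := by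
      rw [mul_sum, ← sum_sub_distrib]
      refine (abs_sum_le_sum_abs _ _).trans ?_
      refine le_trans (sum_le_sum (g := fun p : ℕ => B * (1 / ((p : ℝ) * √p))) fun p hp => ?_) ?_
      · have hpp := (mem_filter.1 hp).2
        haveI : NeZero p := ⟨hpp.ne_zero⟩
        exact (hB _ b hb p hpp).1
      · rw [← mul_sum]
        exact mul_le_mul_of_nonneg_left (hSle _) hB0
    have h2 := hM X
    have h3 : |(r + 1 / 2 : ℝ) * (∑ p ∈ (Ico 0 (X + 1)).filter Nat.Prime, nu K p / p - LL 0 (X + 1))| ≤ (r + 1 / 2) * M := by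
      rw [abs_mul, abs_of_nonneg (by positivity : (0 : ℝ) ≤ r + 1 / 2)]
      exact mul_le_mul_of_nonneg_left h2 (by positivity)
    have e : ∑ p ∈ (Ico 0 (X + 1)).filter Nat.Prime, muT r b p - (r + 1 / 2) * LL 0 (X + 1) =
        (∑ p ∈ (Ico 0 (X + 1)).filter Nat.Prime, muT r b p - (r + 1 / 2) * ∑ p ∈ (Ico 0 (X + 1)).filter Nat.Prime, nu K p / p) +
        (r + 1 / 2) * (∑ p ∈ (Ico 0 (X + 1)).filter Nat.Prime, nu K p / p - LL 0 (X + 1)) := by ring
    rw [e]
    exact (abs_add_le _ _).trans (add_le_add h1 h3)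
  refine ⟨B * S + (r + 1 / 2) * M + ∑ f ∈ Icc 1 (Module.finrank ℚ K), D * 6 * Cf f, B * S + M,
    { sys := ⟨by rw [← hD]; linarith, fun p hp c => ?_, fun p hp _ => ?_⟩
      K00 := ?_
      K10 := by positivity
      near := fun X c => ?_
      var := fun x => ?_ }⟩
  · have h1 := muT_le r b hp
    have h2 := hT_le r b hp c
    unfold ZT
    refine (abs_sub _ _).trans ((add_le_add h1 h2).trans (le_of_eq ?_))
    ring
  · unfold ZT
    rw [EM_sub', EM_const', muT_eq, sub_self]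
  · have h1 : 0 ≤ ∑ f ∈ Icc 1 (Module.finrank ℚ K), D * 6 * Cf f := sum_nonneg fun f _ => by
      have := hCf0 f
      positivity
    positivity
  · show |Real.log (product (Cc r b c) X) + SS (ZT r b) 0 (X + 1) c - (r + 1 / 2) * LL 0 (X + 1)| ≤ _
    have h1 : SS (ZT r b) 0 (X + 1) c = ∑ p ∈ (Ico 0 (X + 1)).filter Nat.Prime, muT r b p -
        ∑ f ∈ Icc 1 (Module.finrank ℚ K), ∑ p ∈ (Ico 0 (X + 1)).filter Nat.Prime, hd f p (Cc r b c) := by
      unfold SS ZT
      rw [sum_sub_distrib, sum_comm]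
      congr 1
      refine sum_congr rfl fun p hp => ?_
      rw [hT_red r b (mem_filter.1 hp).2 c]
    have h2 : Real.log (product (Cc r b c) X) = ∑ f ∈ Icc 1 (Module.finrank ℚ K),
        ∑ p ∈ (Ico 0 (rt f X + 1)).filter Nat.Prime, hd f p (Cc r b c) := by
      rw [log_product]
      refine sum_congr rfl fun f _ => ?_
      rw [PP_eq]
    have h3 : ∀ f ∈ Icc 1 (Module.finrank ℚ K), |∑ p ∈ (Ico 0 (X + 1)).filter Nat.Prime, hd f p (Cc r b c) -
        ∑ p ∈ (Ico 0 (rt f X + 1)).filter Nat.Prime, hd f p (Cc r b c)| ≤ D * 6 * Cf f := by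
      intro f hf
      have hf1 := (mem_Icc.1 hf).1
      have hrX : rt f X ≤ X := by
        have h1 : rt f X ^ f ≤ X := (le_rt hf1).1 le_rfl
        exact (Nat.le_self_pow (by omega) _).trans h1
      rw [Ico_prime_split _ (show rt f X + 1 ≤ X + 1 by omega), add_sub_cancel_left]
      rcases hf1.eq_or_lt with h | h
      · have h4 : rt f X = X := by
          rw [← h]
          refine le_antisymm (by rw [← h] at hrX; exact hrX) ?_
          rw [le_rt le_rfl, pow_one]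
        rw [h4, Ico_self, filter_empty, sum_empty, abs_zero]
        have := hCf0 f
        positivity
      · refine (abs_sum_le_sum_abs _ _).trans ?_
        refine le_trans (sum_le_sum (g := fun p : ℕ => D * 6 * (1 / (p : ℝ))) fun p hp => ?_) ?_
        · have h5 := hd_le2 (K := K) h (mem_filter.1 hp).2 (Cc r b c)
          rw [← hD] at h5
          refine h5.trans (le_of_eq ?_)
          ring
        · rw [← mul_sum]
          have h6 := hCf f hf1 X
          unfold LL at h6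
          exact mul_le_mul_of_nonneg_left h6 (by positivity)
    rw [h1, h2]
    have e : ∑ f ∈ Icc 1 (Module.finrank ℚ K), ∑ p ∈ (Ico 0 (rt f X + 1)).filter Nat.Prime, hd f p (Cc r b c) +
        (∑ p ∈ (Ico 0 (X + 1)).filter Nat.Prime, muT r b p -
          ∑ f ∈ Icc 1 (Module.finrank ℚ K), ∑ p ∈ (Ico 0 (X + 1)).filter Nat.Prime, hd f p (Cc r b c)) -
        (r + 1 / 2) * LL 0 (X + 1) =
        (∑ p ∈ (Ico 0 (X + 1)).filter Nat.Prime, muT r b p - (r + 1 / 2) * LL 0 (X + 1)) -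
        ∑ f ∈ Icc 1 (Module.finrank ℚ K), (∑ p ∈ (Ico 0 (X + 1)).filter Nat.Prime, hd f p (Cc r b c) -
          ∑ p ∈ (Ico 0 (rt f X + 1)).filter Nat.Prime, hd f p (Cc r b c)) := by
      rw [sum_sub_distrib]
      ring
    rw [e]
    refine (abs_sub _ _).trans (add_le_add (hmuLL X) ?_)
    exact (abs_sum_le_sum_abs _ _).trans (sum_le_sum h3)
  · rcases Nat.eq_zero_or_pos x with rfl | hx
    · simp [LL]
      positivity
    · obtain ⟨X, rfl⟩ : ∃ X, x = X + 1 := ⟨x - 1, by omega⟩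
      have h1 : |∑ p ∈ (Ico 0 (X + 1)).filter Nat.Prime, vv (ZT r b) p -
          ∑ p ∈ (Ico 0 (X + 1)).filter Nat.Prime, nu K p / p| ≤ B * S := by
        rw [← sum_sub_distrib]
        refine (abs_sum_le_sum_abs _ _).trans ?_
        refine le_trans (sum_le_sum (g := fun p : ℕ => B * (1 / ((p : ℝ) * √p))) fun p hp => ?_) ?_
        · have hpp := (mem_filter.1 hp).2
          haveI : NeZero p := ⟨hpp.ne_zero⟩
          rw [vv_eq]
          exact (hB _ b hb p hpp).2
        · rw [← mul_sum]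
          exact mul_le_mul_of_nonneg_left (hSle _) hB0
      have h2 := hM X
      rw [abs_le] at h1 h2 ⊢
      constructor <;> linarith [h1.1, h1.2, h2.1, h2.2]

end Pool.Agent.V5helper57.NFld
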