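import Pool.Agent.Q282.NF.Means
import Pool.Agent.X280.BP.Final

/-!
# Residues of the parameters modulo primes of a number field
-/

set_option autoImplicit false

namespace Pool.Agent.V5helper57.NFld

open Finset NumberField IsDedekindDomain Q282.NF Pool.Agent.Y722.HS
open Pool.Agent.H921R2.TatePole (below deg nm nm_eq)

/-! ### Averages over the values of a surjective homomorphism -/

theorem EM_surj {ι : Type} [Fintype ι] [DecidableEq ι] (p : ℕ) [NeZero p] {V : Type} [AddCommGroup V] [Fintype V]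
    (Φ : (ι → ZMod p) →+ V) (hΦ : Function.Surjective Φ) (G : V → ℝ) :
    EM p (fun u => G (Φ u)) = (∑ v : V, G v) / Fintype.card V := by
  have h1 := sum_surj Φ hΦ G
  have h2 : (Fintype.card (ι → ZMod p) : ℝ) = (p : ℝ) ^ Fintype.card ι := by
    rw [Fintype.card_fun, ZMod.card]
    push_cast
    rfl
  have h3 : (0 : ℝ) < (p : ℝ) ^ Fintype.card ι := by
    have : (0 : ℝ) < p := by exact_mod_cast Nat.pos_of_ne_zero (NeZero.ne p)
    positivity
  have h4 : (0 : ℝ) < Fintype.card V := by exact_mod_cast Fintype.card_pos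
  unfold EM
  rw [div_eq_div_iff h3.ne' h4.ne', h1, h2, mul_comm]

/-- Two independent functions. -/
theorem EM_indep {ι : Type} [Fintype ι] [DecidableEq ι] (p : ℕ) [NeZero p] {V W : Type} [AddCommGroup V] [Fintype V]
    [AddCommGroup W] [Fintype W] (Φ : (ι → ZMod p) →+ V) (Ψ : (ι → ZMod p) →+ W)
    (h : ∀ (v : V) (w : W), ∃ u, Φ u = v ∧ Ψ u = w) (G : V → ℝ) (H : W → ℝ) :
    EM p (fun u => G (Φ u) * H (Ψ u)) = EM p (fun u => G (Φ u)) * EM p (fun u => H (Ψ u)) := by
  have hΦ : Function.Surjective Φ := fun v => by obtain ⟨u, hu, _⟩ := h v 0; exact ⟨u, hu⟩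
  have hΨ : Function.Surjective Ψ := fun w => by obtain ⟨u, _, hu⟩ := h 0 w; exact ⟨u, hu⟩
  have hΦΨ : Function.Surjective (Φ.prod Ψ) := by
    rintro ⟨v, w⟩
    obtain ⟨u, h1, h2⟩ := h v w
    exact ⟨u, Prod.ext h1 h2⟩
  have h1 := EM_surj p (Φ.prod Ψ) hΦΨ (fun x => G x.1 * H x.2)
  have e : (fun u => G (Φ u) * H (Ψ u)) = fun u => (fun x : V × W => G x.1 * H x.2) ((Φ.prod Ψ) u) := rfl
  rw [e, h1, EM_surj p Φ hΦ G, EM_surj p Ψ hΨ H, Fintype.sum_prod_type, Fintype.card_prod]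
  have e2 : ∑ v : V, ∑ w : W, G v * H w = (∑ v : V, G v) * ∑ w : W, H w := by
    rw [Finset.sum_mul_sum]
  rw [e2]
  push_cast
  rw [div_mul_div_comm]

section

variable {O F : Type} [CommRing O] [Field F] [Fintype F]

/-- The values of the parameters in a residue field. -/
noncomputable def par {m d : ℕ} (p : ℕ) [CharP F p] (π : O →+* F) (b : Fin d → O) :
    (Fin m × Fin d → ZMod p) →+ (Fin m → F) where
  toFun u i := ∑ j, ZMod.castHom (dvd_refl p) F (u (i, j)) * π (b j)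
  map_zero' := by
    funext i
    simp
  map_add' u v := by
    funext i
    simp [add_mul, sum_add_distrib]

theorem par_apply {m d : ℕ} (p : ℕ) [CharP F p] (π : O →+* F) (b : Fin d → O) (u : Fin m × Fin d → ZMod p) (i : Fin m) :
    par p π b u i = ∑ j, ZMod.castHom (dvd_refl p) F (u (i, j)) * π (b j) := rfl

/-- The parameters with integral coordinates. -/
theorem par_int {m d : ℕ} (p : ℕ) [CharP F p] (π : O →+* F) (b : Fin d → O) (c : Fin m × Fin d → ℤ) :
    par p π b (red p c) = fun i => π (combine b (fun i j => c (i, j)) i) := by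
  funext i
  rw [par_apply]
  unfold combine red
  rw [map_sum]
  refine sum_congr rfl fun j _ => ?_
  rw [map_mul, map_intCast, map_intCast]

theorem par_surj {m d : ℕ} (p : ℕ) [CharP F p] (π : O →+* F) (hπ : Function.Surjective π) (b : Fin d → O)
    (hb : ∀ x : O, ∃ a : Fin d → ℤ, x = ∑ j, (a j : O) * b j) : Function.Surjective (par (m := m) p π b) := by
  intro v
  have h1 : ∀ i, ∃ a : Fin d → ℤ, v i = π (∑ j, (a j : O) * b j) := by
    intro i
    obtain ⟨x, hx⟩ := hπ (v i)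
    obtain ⟨a, ha⟩ := hb x
    exact ⟨a, by rw [← hx, ha]⟩
  choose a ha using h1
  refine ⟨red p (fun ij => a ij.1 ij.2), ?_⟩
  rw [par_int]
  funext i
  rw [ha]
  rfl

end

theorem par_surj2 {O F F' : Type} [CommRing O] [Field F] [Fintype F] [Field F'] [Fintype F'] {m d : ℕ} (p : ℕ) [CharP F p]
    [CharP F' p] (π : O →+* F) (hπ : Function.Surjective π) (π' : O →+* F') (hπ' : Function.Surjective π')
    (hne : ∃ e f : O, e + f = 1 ∧ π e = 0 ∧ π' f = 0) (b : Fin d → O)
    (hb : ∀ x : O, ∃ a : Fin d → ℤ, x = ∑ j, (a j : O) * b j) (v : Fin m → F) (w : Fin m → F') :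
    ∃ u, par (m := m) p π b u = v ∧ par (m := m) p π' b u = w := by
  obtain ⟨e, f, hef, he, hf⟩ := hne
  have he' : π' e = 1 := by
    have := congrArg π' hef
    rw [map_add, hf, add_zero, map_one] at this
    exact this
  have hf' : π f = 1 := by
    have := congrArg π hef
    rw [map_add, he, zero_add, map_one] at this
    exact this
  have h1 : ∀ i, ∃ a : Fin d → ℤ, v i = π (∑ j, (a j : O) * b j) ∧ w i = π' (∑ j, (a j : O) * b j) := by
    intro i
    obtain ⟨x, hx⟩ := hπ (v i)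
    obtain ⟨y, hy⟩ := hπ' (w i)
    obtain ⟨a, ha⟩ := hb (x * f + y * e)
    refine ⟨a, ?_, ?_⟩
    · rw [← ha, map_add, map_mul, map_mul, he, hf', mul_one, mul_zero, add_zero, hx]
    · rw [← ha, map_add, map_mul, map_mul, he', hf, mul_one, mul_zero, zero_add, hy]
  choose a ha using h1
  refine ⟨red p (fun ij => a ij.1 ij.2), ?_, ?_⟩
  · rw [par_int]
    funext i
    rw [(ha i).1]
    rfl
  · rw [par_int]
    funext i
    rw [(ha i).2]
    rfl

/-! ### The primes of a number field -/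

variable {K : Type} [Field K] [NumberField K]

/-- The residue field, with the kernel of the reduction. -/
theorem hv_ker (v : HeightOneSpectrum (𝓞 K)) (h2 : (2 : 𝓞 K) ∉ v.asIdeal) :
    ∃ (F : Type) (_ : Field F) (_ : Fintype F) (_ : DecidableEq F) (π : 𝓞 K →+* F), Function.Surjective π ∧
      (∀ x, π x = 0 ↔ x ∈ v.asIdeal) ∧ ringChar F ≠ 2 ∧
      CharP F (below v : ℕ) ∧ Fintype.card F = Ideal.absNorm v.asIdeal ∧ ∀ C, hv v C = locF (mapC π C) := by
  classical
  have hmax : v.asIdeal.IsMaximal := v.isPrime.isMaximal v.ne_bot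
  let _ : Field (𝓞 K ⧸ v.asIdeal) := Ideal.Quotient.field v.asIdeal
  have hfin : Finite (𝓞 K ⧸ v.asIdeal) := Nat.finite_of_card_ne_zero (nm_pos v).ne'
  let _ : Fintype (𝓞 K ⧸ v.asIdeal) := Fintype.ofFinite _
  have hcard : Fintype.card (𝓞 K ⧸ v.asIdeal) = Ideal.absNorm v.asIdeal := by
    rw [← Nat.card_eq_fintype_card]
    rfl
  have hchar : CharP (𝓞 K ⧸ v.asIdeal) (below v : ℕ) := by
    have hp := (nm_eq v).2.2
    have h0 : (((below v : ℕ) : ℕ) : 𝓞 K ⧸ v.asIdeal) = 0 := by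
      rw [← map_natCast (Ideal.Quotient.mk v.asIdeal)]
      exact Ideal.Quotient.eq_zero_iff_mem.2 hp
    exact ringChar.of_eq (CharP.ringChar_of_prime_eq_zero (below v).prop h0)
  have hchar2 : ringChar (𝓞 K ⧸ v.asIdeal) ≠ 2 := by
    intro h
    apply h2
    rw [← Ideal.Quotient.eq_zero_iff_mem]
    have h3 : ((2 : ℕ) : 𝓞 K ⧸ v.asIdeal) = 0 := by
      rw [← h]
      exact ringChar.Nat.cast_ringChar
    rw [map_ofNat]
    exact_mod_cast h3
  refine ⟨𝓞 K ⧸ v.asIdeal, inferInstance, inferInstance, Classical.decEq _, Ideal.Quotient.mk v.asIdeal,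
    Ideal.Quotient.mk_surjective, fun x => Ideal.Quotient.eq_zero_iff_mem, hchar2, hchar, hcard, fun C => ?_⟩
  have hgood : Good C v ↔ ¬ Q282.BP.dis (mapC (Ideal.Quotient.mk v.asIdeal) C) = 0 := by
    unfold Good
    rw [mapC_dis, Ideal.Quotient.eq_zero_iff_mem, disc_eq]
    constructor
    · intro h h3
      exact h (Ideal.mul_mem_left _ _ h3)
    · intro h h3
      rcases v.isPrime.mem_or_mem h3 with h4 | h4
      · exact h2 h4
      · exact h h4
  have hq0 : (0 : ℝ) < Fintype.card (𝓞 K ⧸ v.asIdeal) := by exact_mod_cast Fintype.card_pos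
  have hpts : (points C v : ℝ) = Fintype.card (𝓞 K ⧸ v.asIdeal) + Q282.BP.SS (mapC (Ideal.Quotient.mk v.asIdeal) C) := by
    unfold points
    exact card_affine hchar2 (fun x => x ^ 3 + (Ideal.Quotient.mk v.asIdeal) C.1 * x ^ 2 +
      (Ideal.Quotient.mk v.asIdeal) C.2.1 * x + (Ideal.Quotient.mk v.asIdeal) C.2.2)
  unfold hv locF
  by_cases hg : Good C v
  · rw [if_pos hg, if_neg (hgood.1 hg), hpts, ← hcard]
    congr 1
    field_simp
    ring
  · rw [if_neg hg, if_pos (not_not.1 fun h => hg (hgood.2 h))]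

/-- Different primes are coprime. -/
theorem coprime_ne {v w : HeightOneSpectrum (𝓞 K)} (h : v ≠ w) : ∃ e f : 𝓞 K, e + f = 1 ∧ e ∈ v.asIdeal ∧ f ∈ w.asIdeal := by
  have hv : v.asIdeal.IsMaximal := v.isPrime.isMaximal v.ne_bot
  have hw : w.asIdeal.IsMaximal := w.isPrime.isMaximal w.ne_bot
  have hne : v.asIdeal ≠ w.asIdeal := fun h' => h (HeightOneSpectrum.ext h')
  have h1 := hv.coprime_of_ne hw hne
  have h2 : (1 : 𝓞 K) ∈ v.asIdeal ⊔ w.asIdeal := by rw [h1]; exact Submodule.mem_top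
  obtain ⟨e, he, f, hf, hef⟩ := Submodule.mem_sup.1 h2
  exact ⟨e, f, hef, he, hf⟩

/-- The local value at `v` as a function of the residues of the coordinates. -/
noncomputable def XX (r : ℕ) {d : ℕ} (b : Fin d → 𝓞 K) (p : ℕ) (v : HeightOneSpectrum (𝓞 K)) (u : Fin (r + 3) × Fin d → ZMod p) : ℝ :=
  hv v (family r (combine b (fun i j => ((u (i, j)).val : ℤ))))

/-- The structure of the local values. -/
theorem XX_struct (r : ℕ) {d : ℕ} (b : Fin d → 𝓞 K) {p : ℕ} (v : HeightOneSpectrum (𝓞 K)) (hvp : (below v : ℕ) = p)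
    (h2 : (2 : 𝓞 K) ∉ v.asIdeal) :
    ∃ (F : Type) (_ : Field F) (_ : Fintype F) (_ : DecidableEq F) (π : 𝓞 K →+* F) (_ : CharP F p),
      Function.Surjective π ∧ (∀ x, π x = 0 ↔ x ∈ v.asIdeal) ∧ ringChar F ≠ 2 ∧ Fintype.card F = Ideal.absNorm v.asIdeal ∧
      (∀ c : Fin (r + 3) × Fin d → ℤ, hv v (family r (combine b (fun i j => c (i, j)))) =
        locF (Q282.BP.fam r (par p π b (red p c)))) ∧
      ∀ u, XX r b p v u = locF (Q282.BP.fam r (par p π b u)) := by
  classical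
  subst hvp
  obtain ⟨F, _, _, _, π, hπ, hker, hF, hch, hcard, hval⟩ := hv_ker v h2
  have h1 : ∀ c : Fin (r + 3) × Fin d → ℤ, hv v (family r (combine b (fun i j => c (i, j)))) =
        locF (Q282.BP.fam r (par (below v : ℕ) π b (red (below v : ℕ) c))) := by
    intro c
    rw [hval, family_eq, mapC_fam, par_int]
  refine ⟨F, inferInstance, inferInstance, inferInstance, π, hch, hπ, hker, hF, hcard, h1, fun u => ?_⟩
  have h3 := h1 (fun ij => ((u ij).val : ℤ))
  unfold XX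
  rw [h3]
  congr 3
  funext ij
  unfold red
  haveI : NeZero (below v : ℕ) := ⟨(below v).prop.ne_zero⟩
  push_cast
  exact ZMod.natCast_zmod_val (u ij)

theorem XX_two (r : ℕ) {d : ℕ} (b : Fin d → 𝓞 K) (p : ℕ) (v : HeightOneSpectrum (𝓞 K)) (h2 : (2 : 𝓞 K) ∈ v.asIdeal)
    (u : Fin (r + 3) × Fin d → ZMod p) : XX r b p v u = 0 := hv_two v h2 _

/-- Reduction of integral coordinates. -/
theorem XX_red (r : ℕ) {d : ℕ} (b : Fin d → 𝓞 K) {p : ℕ} (v : HeightOneSpectrum (𝓞 K)) (hvp : (below v : ℕ) = p)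
    (c : Fin (r + 3) × Fin d → ℤ) : XX r b p v (red p c) = hv v (family r (combine b (fun i j => c (i, j)))) := by
  by_cases h2 : (2 : 𝓞 K) ∈ v.asIdeal
  · rw [XX_two r b _ v h2, hv_two v h2]
  · obtain ⟨F, _, _, _, π, _, _, _, _, _, h1, h3⟩ := XX_struct r b v hvp h2
    rw [h3, h1]

theorem XX_le (r : ℕ) {d : ℕ} (b : Fin d → 𝓞 K) {p : ℕ} (v : HeightOneSpectrum (𝓞 K)) (u : Fin (r + 3) × Fin d → ZMod p) :
    |XX r b p v u| ≤ 6 / Real.sqrt (Ideal.absNorm v.asIdeal) := hv_le v _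

/-- The local values at different primes above `p` are independent. -/
theorem XX_indep (r : ℕ) {d : ℕ} (b : Fin d → 𝓞 K) (hb : ∀ x : 𝓞 K, ∃ a : Fin d → ℤ, x = ∑ j, (a j : 𝓞 K) * b j)
    {p : ℕ} [NeZero p] {v w : HeightOneSpectrum (𝓞 K)} (hvp : (below v : ℕ) = p) (hwp : (below w : ℕ) = p) (hne : v ≠ w) :
    EM p (fun u : Fin (r + 3) × Fin d → ZMod p => XX r b p v u * XX r b p w u) = EM p (XX r b p v) * EM p (XX r b p w) := by
  classical
  by_cases hv2 : (2 : 𝓞 K) ∈ v.asIdeal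
  · have e : (XX r b p v) = fun _ => 0 := funext fun u => XX_two r b p v hv2 u
    rw [e]
    simp [EM]
  by_cases hw2 : (2 : 𝓞 K) ∈ w.asIdeal
  · have e : (XX r b p w) = fun _ => 0 := funext fun u => XX_two r b p w hw2 u
    rw [e]
    simp [EM]
  obtain ⟨F, _, _, _, π, _, hπ, hker, _, _, _, h3⟩ := XX_struct r b v hvp hv2
  obtain ⟨F', _, _, _, π', _, hπ', hker', _, _, _, h3'⟩ := XX_struct r b w hwp hw2
  obtain ⟨e, f, hef, he, hf⟩ := coprime_ne hne
  have e1 : XX r b p v = fun u => (fun x => locF (Q282.BP.fam r x)) (par (m := r + 3) p π b u) := funext h3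
  have e2 : XX r b p w = fun u => (fun x => locF (Q282.BP.fam r x)) (par (m := r + 3) p π' b u) := funext h3'
  rw [e1, e2]
  exact EM_indep p _ _ (fun x y => par_surj2 p π hπ π' hπ'
    ⟨e, f, hef, (hker e).2 he, (hker' f).2 hf⟩ b hb x y) (fun x => locF (Q282.BP.fam r x)) (fun x => locF (Q282.BP.fam r x))

end Pool.Agent.V5helper57.NFld
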