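import Pool.Agent.V5helper57.NFld.Red2
import Pool.Agent.R459.Bsd2

/-!
# The first two moments of the local values
-/

set_option autoImplicit false

namespace Pool.Agent.V5helper57.NFld

open Finset NumberField IsDedekindDomain Q282.NF Pool.Agent.Y722.HS Q282.BP
open Pool.Agent.H921R2.TatePole (below deg nm nm_eq)

theorem rpow32 {q : ℝ} (hq : 0 < q) : q ^ (3 / 2 : ℝ) = q * √q := by
  rw [show (3 / 2 : ℝ) = 1 + 1 / 2 by norm_num, Real.rpow_add hq, Real.rpow_one, ← Real.sqrt_eq_rpow]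

/-- One local value. -/
theorem log_sq {q S : ℝ} (hq : 3 ≤ q) (hS : |S| ≤ 2 * √q) (hb : |Real.log (1 + (1 + S) / q)| ≤ 6 / √q) :
    |Real.log (1 + (1 + S) / q) ^ 2 - S ^ 2 / q ^ 2| ≤ 1000 / (q * √q) := by
  have hq0 : 0 < q := by linarith
  obtain ⟨s, hs⟩ : ∃ s, s = √q := ⟨_, rfl⟩
  rw [← hs] at hS hb ⊢
  have hs0 : 0 < s := by rw [hs]; exact Real.sqrt_pos.2 hq0
  have hss : s * s = q := by rw [hs]; exact Real.mul_self_sqrt hq0.le
  have hs1 : 1 ≤ s := by nlinarith
  obtain ⟨L, hL⟩ : ∃ L, L = Real.log (1 + (1 + S) / q) := ⟨_, rfl⟩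
  rw [← hL] at hb ⊢
  have hS2 : S ^ 2 ≤ 4 * q := by
    rw [← sq_abs]
    calc |S| ^ 2 ≤ (2 * s) ^ 2 := pow_le_pow_left₀ (abs_nonneg _) hS 2
      _ = 4 * q := by rw [← hss]; ring
  by_cases h100 : 100 ≤ q
  · have hs10 : 10 ≤ s := by
      rw [hs]
      apply Real.le_sqrt_of_sq_le
      linarith
    obtain ⟨u, hu⟩ : ∃ u, u = (1 + S) / q := ⟨_, rfl⟩
    rw [← hu] at hL
    have hu1 : |u| ≤ 3 / s := by
      rw [hu, abs_div, abs_of_pos hq0, div_le_div_iff₀ hq0 hs0]
      have : |1 + S| ≤ 3 * s := by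
        have := abs_add_le 1 S
        rw [abs_one] at this
        linarith
      calc |1 + S| * s ≤ 3 * s * s := by gcongr
        _ = 3 * q := by rw [mul_assoc, hss]
    have hu2 : |u| ≤ 1 / 2 := hu1.trans (by rw [div_le_div_iff₀ hs0 (by norm_num)]; linarith)
    obtain ⟨k1, k2⟩ := Pool.Agent.R459.Bsd.log_le hu2
    rw [← hL] at k1 k2
    have k3 : |L - u| ≤ 3 / 2 * u ^ 2 := by
      have e : L - u = (L - (u - u ^ 2 / 2)) - u ^ 2 / 2 := by ring
      rw [e]
      refine (abs_sub _ _).trans ?_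
      rw [abs_of_nonneg (by positivity : (0 : ℝ) ≤ u ^ 2 / 2)]
      have : |u| ^ 3 ≤ 1 / 2 * u ^ 2 := by
        have e3 : |u| ^ 3 = |u| * u ^ 2 := by rw [← sq_abs u]; ring
        rw [e3]
        exact mul_le_mul_of_nonneg_right hu2 (sq_nonneg _)
      linarith
    have k4 : |L ^ 2 - u ^ 2| ≤ 5 * |u| ^ 3 := by
      have e : L ^ 2 - u ^ 2 = (L - u) * (L + u) := by ring
      rw [e, abs_mul]
      have k5 : |L + u| ≤ 3 * |u| := (abs_add_le _ _).trans (by linarith)
      calc |L - u| * |L + u| ≤ 3 / 2 * u ^ 2 * (3 * |u|) := by gcongr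
        _ = 9 / 2 * |u| ^ 3 := by rw [← sq_abs u]; ring
        _ ≤ 5 * |u| ^ 3 := by have : 0 ≤ |u| ^ 3 := by positivity
                              linarith
    have k6 : |u| ^ 3 ≤ 27 / (q * s) := by
      calc |u| ^ 3 ≤ (3 / s) ^ 3 := pow_le_pow_left₀ (abs_nonneg _) hu1 3
        _ = 27 / (q * s) := by rw [div_pow, ← hss]; norm_num; ring
    have k7 : |u ^ 2 - S ^ 2 / q ^ 2| ≤ 5 / (q * s) := by
      have e : u ^ 2 - S ^ 2 / q ^ 2 = (1 + 2 * S) / q ^ 2 := by rw [hu]; field_simp; ring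
      rw [e, abs_div, abs_of_pos (by positivity : 0 < q ^ 2), div_le_div_iff₀ (by positivity) (by positivity)]
      have k8 : |1 + 2 * S| ≤ 5 * s := by
        have := abs_add_le 1 (2 * S)
        rw [abs_one, abs_mul, abs_two] at this
        linarith
      calc |1 + 2 * S| * (q * s) ≤ 5 * s * (q * s) := by gcongr
        _ = 5 * q * (s * s) := by ring
        _ = 5 * q ^ 2 := by rw [hss]; ring
    have e : L ^ 2 - S ^ 2 / q ^ 2 = (L ^ 2 - u ^ 2) + (u ^ 2 - S ^ 2 / q ^ 2) := by ring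
    rw [e]
    refine (abs_add_le _ _).trans ?_
    calc |L ^ 2 - u ^ 2| + |u ^ 2 - S ^ 2 / q ^ 2| ≤ 5 * (27 / (q * s)) + 5 / (q * s) := by linarith
      _ = 140 / (q * s) := by ring
      _ ≤ 1000 / (q * s) := by gcongr; norm_num
  · push Not at h100
    have hs10 : s ≤ 10 := by
      rw [hs]
      apply Real.sqrt_le_iff.2
      constructor <;> linarith
    have k1 : L ^ 2 ≤ 36 / q := by
      rw [← sq_abs]
      calc |L| ^ 2 ≤ (6 / s) ^ 2 := pow_le_pow_left₀ (abs_nonneg _) hb 2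
        _ = 36 / q := by rw [div_pow, sq s, hss]; norm_num
    have k2 : S ^ 2 / q ^ 2 ≤ 4 / q := by
      rw [div_le_div_iff₀ (by positivity) hq0]
      nlinarith
    have k3 : 0 ≤ L ^ 2 := sq_nonneg _
    have k4 : 0 ≤ S ^ 2 / q ^ 2 := by positivity
    have k5 : 40 / q ≤ 1000 / (q * s) := by
      rw [div_le_div_iff₀ hq0 (by positivity)]
      nlinarith
    have k6 : 36 / q + 4 / q = 40 / q := by ring
    rw [abs_le]
    constructor <;> linarith

/-- The second moment of the local values. -/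
theorem loc_sq (r : ℕ) (hr : r ≤ 2) (F : Type) [Field F] [Fintype F] [DecidableEq F] (hF : ringChar F ≠ 2)
    (h27 : (27 : F) ≠ 0) : |(∑ t : Fin (r + 3) → F, locF (fam r t) ^ 2) / Fintype.card (Fin (r + 3) → F) - 1 / Fintype.card F| ≤
      1100 / ((Fintype.card F : ℝ) * √(Fintype.card F)) := by
  classical
  obtain ⟨hb, _, hm2⟩ := loc_fam hF (Or.inl h27) r hr
  obtain ⟨q, hq⟩ : ∃ q : ℝ, q = Fintype.card F := ⟨_, rfl⟩
  have h3 : 3 ≤ q := by rw [hq]; exact_mod_cast three_le_card hF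
  have hq0 : 0 < q := by linarith
  obtain ⟨s, hs⟩ : ∃ s, s = √q := ⟨_, rfl⟩
  have hs0 : 0 < s := by rw [hs]; exact Real.sqrt_pos.2 hq0
  have hss : s * s = q := by rw [hs]; exact Real.mul_self_sqrt hq0.le
  have hs1 : 1 ≤ s := by nlinarith
  have hsq : s ≤ q := by nlinarith
  obtain ⟨N, hN⟩ : ∃ N : ℝ, N = Fintype.card (Fin (r + 3) → F) := ⟨_, rfl⟩
  have hN0 : 0 < N := by rw [hN]; exact_mod_cast Fintype.card_pos
  rw [← hq, ← hN] at hb hm2
  rw [← hq, ← hN, ← hs]
  have hterm : ∀ t : Fin (r + 3) → F, |locF (fam r t) ^ 2 - SS (fam r t) ^ 2 / q ^ 2| ≤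
      1000 / (q * s) + (if dis (fam r t) = 0 then 4 / q else 0) := by
    intro t
    have hS := hasse hF (fam r t)
    rw [← hq] at hS
    unfold locF
    split_ifs with h0
    · have h5 : SS (fam r t) ^ 2 / q ^ 2 ≤ 4 / q := by
        rw [div_le_div_iff₀ (by positivity) hq0]
        have : SS (fam r t) ^ 2 ≤ 4 * q := by
          rw [← sq_abs]
          calc |SS (fam r t)| ^ 2 ≤ (2 * √q) ^ 2 := pow_le_pow_left₀ (abs_nonneg _) hS 2
            _ = 4 * q := by rw [mul_pow, Real.sq_sqrt hq0.le]; norm_num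
        nlinarith
      have h6 : 0 ≤ SS (fam r t) ^ 2 / q ^ 2 := by positivity
      have h7 : 0 ≤ 1000 / (q * s) := by positivity
      rw [zero_pow (by norm_num), zero_sub, abs_neg, abs_of_nonneg h6]
      linarith
    · rw [add_zero, ← hq, hs]
      have hb1 := locF_le hF (fam r t)
      unfold locF at hb1
      rw [if_neg h0, ← hq] at hb1
      exact log_sq h3 hS hb1
  have h1 : |∑ t : Fin (r + 3) → F, locF (fam r t) ^ 2 - (∑ t : Fin (r + 3) → F, SS (fam r t) ^ 2) / q ^ 2| ≤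
      N * (1000 / (q * s)) + 80 * N / (q * q) := by
    rw [Finset.sum_div, ← Finset.sum_sub_distrib]
    refine (Finset.abs_sum_le_sum_abs _ _).trans ((Finset.sum_le_sum fun t _ => hterm t).trans ?_)
    rw [Finset.sum_add_distrib, Finset.sum_const, Finset.card_univ, nsmul_eq_mul, ← hN, ← Finset.sum_filter, Finset.sum_const,
      nsmul_eq_mul]
    have h2 : ((univ.filter fun t : Fin (r + 3) → F => dis (fam r t) = 0).card : ℝ) ≤ 20 * N / q := by
      rw [le_div_iff₀ hq0]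
      exact hb
    have h4 : ((univ.filter fun t : Fin (r + 3) → F => dis (fam r t) = 0).card : ℝ) * (4 / q) ≤ 20 * N / q * (4 / q) :=
      mul_le_mul_of_nonneg_right h2 (by positivity)
    have e : 20 * N / q * (4 / q) = 80 * N / (q * q) := by field_simp; norm_num
    linarith
  have h5 : |(∑ t : Fin (r + 3) → F, SS (fam r t) ^ 2) / q ^ 2 - N / q| ≤ 20 * N / (q * q) := by
    have e : (∑ t : Fin (r + 3) → F, SS (fam r t) ^ 2) / q ^ 2 - N / q = (∑ t : Fin (r + 3) → F, SS (fam r t) ^ 2 - q * N) / (q * q) := by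
      field_simp
    rw [e, abs_div, abs_of_pos (by positivity : 0 < q * q)]
    exact div_le_div_of_nonneg_right hm2 (by positivity)
  have e : (∑ t : Fin (r + 3) → F, locF (fam r t) ^ 2) / N - 1 / q =
      ((∑ t : Fin (r + 3) → F, locF (fam r t) ^ 2 - (∑ t : Fin (r + 3) → F, SS (fam r t) ^ 2) / q ^ 2) +
        ((∑ t : Fin (r + 3) → F, SS (fam r t) ^ 2) / q ^ 2 - N / q)) / N := by
    field_simp
    ring
  rw [e, abs_div, abs_of_pos hN0, div_le_iff₀ hN0]
  refine (abs_add_le _ _).trans ?_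
  have h6 : 100 * N / (q * q) ≤ 100 * N / (q * s) := by
    apply div_le_div_of_nonneg_left (by positivity) (by positivity)
    nlinarith
  have e2 : 1100 / (q * s) * N = N * (1000 / (q * s)) + 100 * N / (q * s) := by ring
  have e3 : 80 * N / (q * q) + 20 * N / (q * q) = 100 * N / (q * q) := by ring
  rw [e2]
  linarith

variable {K : Type} [Field K] [NumberField K]

theorem not_mem_of {v : HeightOneSpectrum (𝓞 K)} (h5 : 5 ≤ (below v : ℕ)) : (2 : 𝓞 K) ∉ v.asIdeal ∧ (27 : 𝓞 K) ∉ v.asIdeal := by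
  have hnot : ∀ m : ℕ, 0 < m → (∀ p : ℕ, p.Prime → p ∣ m → p < 5) → (m : 𝓞 K) ∉ v.asIdeal := by
    intro m hm hpm h
    have h1 : (((m : ℕ) : ℤ) : 𝓞 K) ∈ v.asIdeal := by
      rw [Int.cast_natCast]
      exact h
    rw [Pool.Agent.H921R2.TatePole.int_mem_iff] at h1
    have h3 : (below v : ℕ) ∣ m := by exact_mod_cast h1
    have := hpm _ (below v).prop h3
    omega
  constructor
  · have := hnot 2 (by norm_num) (fun p hp h => by
      have := Nat.le_of_dvd (by norm_num) h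
      omega)
    exact_mod_cast this
  · have := hnot 27 (by norm_num) (fun p hp h => by
      have h3 : p ∣ 3 ^ 3 := by
        norm_num
        exact h
      have := (Nat.prime_dvd_prime_iff_eq hp Nat.prime_three).1 (hp.dvd_of_dvd_pow h3)
      omega)
    exact_mod_cast this

/-- The two moments at a prime. -/
theorem XX_moments (r : ℕ) (hr : r ≤ 2) : ∃ C : ℝ, 0 ≤ C ∧ ∀ (K : Type) [Field K] [NumberField K] (v : HeightOneSpectrum (𝓞 K))
    (p : ℕ) [NeZero p], (below v : ℕ) = p → 5 ≤ p → ∀ (d : ℕ) (b : Fin d → 𝓞 K),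
    (∀ x : 𝓞 K, ∃ a : Fin d → ℤ, x = ∑ j, (a j : 𝓞 K) * b j) →
    |EM p (XX r b p v) - (r + 1 / 2) / Ideal.absNorm v.asIdeal| ≤ C / ((Ideal.absNorm v.asIdeal : ℝ) * √(Ideal.absNorm v.asIdeal)) ∧
    |EM p (fun u => XX r b p v u ^ 2) - 1 / Ideal.absNorm v.asIdeal| ≤
      C / ((Ideal.absNorm v.asIdeal : ℝ) * √(Ideal.absNorm v.asIdeal)) := by
  classical
  obtain ⟨C, hC0, hC⟩ := loc_mean r hr
  refine ⟨max C 1100, le_max_of_le_left hC0, ?_⟩
  intro K _ _ v p _ hvp h5 d b hb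
  obtain ⟨h2, h27⟩ := not_mem_of (v := v) (by rw [hvp]; exact h5)
  obtain ⟨F, _, _, _, π, _, hπ, hker, hF, hcard, _, h3⟩ := XX_struct r b v hvp h2
  have h27F : (27 : F) ≠ 0 := by
    intro h
    apply h27
    rw [← hker, map_ofNat]
    exact h
  have hq0 : (0 : ℝ) < Fintype.card F := by exact_mod_cast Fintype.card_pos
  rw [← hcard]
  have hden : 0 < (Fintype.card F : ℝ) * √(Fintype.card F) := mul_pos hq0 (Real.sqrt_pos.2 hq0)
  have e1 : XX r b p v = fun u => (fun x => locF (fam r x)) (par (m := r + 3) p π b u) := funext h3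
  have e2 : (fun u => XX r b p v u ^ 2) = fun u => (fun x => locF (fam r x) ^ 2) (par (m := r + 3) p π b u) := by
    funext u
    rw [h3]
  have hs := par_surj (m := r + 3) p π hπ b hb
  constructor
  · have h9 := EM_surj p _ hs (fun x => locF (fam r x))
    rw [e1, h9]
    have h1 := hC F hF h27F
    rw [rpow32 hq0] at h1
    exact h1.trans (div_le_div_of_nonneg_right (le_max_left _ _) hden.le)
  · have h9 := EM_surj p _ hs (fun x => locF (fam r x) ^ 2)
    rw [e2, h9]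
    exact (loc_sq r hr F hF h27F).trans (div_le_div_of_nonneg_right (le_max_right _ _) hden.le)

end Pool.Agent.V5helper57.NFld
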