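import Pool.Agent.V5helper57.NFld.Sec
import Pool.Agent.V5helper57.Win.Main

/-!
# The local data of the products over a number field
-/

set_option autoImplicit false

namespace Pool.Agent.V5helper57.NFld

open Finset NumberField IsDedekindDomain Q282.NF Pool.Agent.Y722.HS
open Pool.Agent.H921R2.TatePole (below deg nm nm_eq)
open Pool.Agent.X280.BP (EM_sub' EM_const' EM_mul' EM_add' EM_abs_le EM_mono' summable_three vv vv_eq)

variable {K : Type} [Field K] [NumberField K]

/-- A prime number as an element of `Nat.Primes`. -/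
def prm (p : ℕ) (hp : p.Prime) : Nat.Primes := ⟨p, hp⟩

theorem prm_coe (p : ℕ) (hp : p.Prime) : ((prm p hp : Nat.Primes) : ℕ) = p := rfl

/-- The primes above `P`. -/
abbrev Fb (K : Type) [Field K] [NumberField K] (P : Nat.Primes) : Type := {v : HeightOneSpectrum (𝓞 K) // below v = P}

theorem EM_sum2 {ι : Type} [Fintype ι] [DecidableEq ι] (p : ℕ) [NeZero p] {κ : Type} (s : Finset κ) (f : κ → (ι → ZMod p) → ℝ) :
    EM p (fun c => ∑ i ∈ s, f i c) = ∑ i ∈ s, EM p (f i) := by
  unfold EM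
  rw [Finset.sum_comm, Finset.sum_div]

/-- The sum of the local values over the primes above `p`. -/
noncomputable def hT (r : ℕ) {d : ℕ} (b : Fin d → 𝓞 K) (p : ℕ) (u : Fin (r + 3) × Fin d → ZMod p) : ℝ :=
  if hp : p.Prime then ∑ v : Fb K (prm p hp), XX r b p v.1 u else 0

/-- Its mean. -/
noncomputable def muT (r : ℕ) {d : ℕ} (b : Fin d → 𝓞 K) (p : ℕ) : ℝ :=
  if h : p = 0 then 0 else (haveI : NeZero p := ⟨h⟩; EM p (hT r b p))

theorem muT_eq (r : ℕ) {d : ℕ} (b : Fin d → 𝓞 K) (p : ℕ) [NeZero p] : muT r b p = EM p (hT r b p) := by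
  unfold muT
  rw [dif_neg (NeZero.ne p)]

/-- The centred data. -/
noncomputable def ZT (r : ℕ) {d : ℕ} (b : Fin d → 𝓞 K) (p : ℕ) (u : Fin (r + 3) × Fin d → ZMod p) : ℝ := muT r b p - hT r b p u

theorem fiber_bd (P : Nat.Primes) (F : Fb K P → ℝ) {c : ℝ} (hc : 0 ≤ c)
    (h : ∀ v, |F v| ≤ c) : |∑ v, F v| ≤ Module.finrank ℚ K * c := by
  refine (abs_sum_le_sum_abs _ _).trans ((sum_le_sum fun v _ => h v).trans ?_)
  rw [sum_const, card_univ, nsmul_eq_mul]
  exact mul_le_mul_of_nonneg_right (fib_card P) hc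

theorem XX_le' (r : ℕ) {d : ℕ} (b : Fin d → 𝓞 K) {p : ℕ} (hp : p.Prime) (v : HeightOneSpectrum (𝓞 K)) (hvp : (below v : ℕ) = p)
    (u : Fin (r + 3) × Fin d → ZMod p) : |XX r b p v u| ≤ 6 / √p := by
  refine (XX_le r b v u).trans ?_
  have hp0 : (0 : ℝ) < p := by exact_mod_cast hp.pos
  refine div_le_div_of_nonneg_left (by norm_num) (Real.sqrt_pos.2 hp0) (Real.sqrt_le_sqrt ?_)
  rw [norm_eq, hvp]
  exact_mod_cast Nat.le_self_pow (nm_eq v).2.1.ne' p

theorem hT_le (r : ℕ) {d : ℕ} (b : Fin d → 𝓞 K) {p : ℕ} (hp : p.Prime) (u : Fin (r + 3) × Fin d → ZMod p) :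
    |hT r b p u| ≤ Module.finrank ℚ K * (6 / √p) := by
  unfold hT
  rw [dif_pos hp]
  exact fiber_bd (prm p hp) _ (by positivity) fun v => XX_le' r b hp v.1 (by rw [v.2]; rfl) u

theorem muT_le (r : ℕ) {d : ℕ} (b : Fin d → 𝓞 K) {p : ℕ} (hp : p.Prime) : |muT r b p| ≤ Module.finrank ℚ K * (6 / √p) := by
  haveI : NeZero p := ⟨hp.ne_zero⟩
  rw [muT_eq]
  refine (EM_abs_le p _ (fun _ => Module.finrank ℚ K * (6 / √p)) (fun u => hT_le r b hp u)).trans ?_
  rw [EM_const']

/-- The sum of the squares of independent variables. -/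
theorem var_fiber (r : ℕ) {d : ℕ} (b : Fin d → 𝓞 K) (hb : ∀ x : 𝓞 K, ∃ a : Fin d → ℤ, x = ∑ j, (a j : 𝓞 K) * b j)
    {p : ℕ} [NeZero p] (hp : p.Prime) : EM p (fun u => ZT r b p u ^ 2) =
      ∑ v : Fb K (prm p hp),
        (EM p (fun u => XX r b p v.1 u ^ 2) - EM p (XX r b p v.1) ^ 2) := by
  classical
  obtain ⟨m, hm⟩ : ∃ m : Fb K (prm p hp) → ℝ, m = fun v => EM p (XX r b p v.1) := ⟨_, rfl⟩
  have hmu : muT r b p = ∑ v, m v := by
    rw [muT_eq]
    have e : hT r b p = fun u => ∑ v : Fb K (prm p hp), XX r b p v.1 u := by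
      funext u
      unfold hT
      rw [dif_pos hp]
    rw [e, EM_sum2, hm]
  have e1 : (fun u => ZT r b p u ^ 2) = fun u => ∑ v : Fb K (prm p hp),
      ∑ w : Fb K (prm p hp),
        (XX r b p v.1 u * XX r b p w.1 u - m w * XX r b p v.1 u - (m v * XX r b p w.1 u - m v * m w)) := by
    funext u
    have h1 : ZT r b p u = ∑ v, (m v - XX r b p v.1 u) := by
      unfold ZT hT
      rw [dif_pos hp, hmu, Finset.sum_sub_distrib]
    rw [h1, sq, Finset.sum_mul_sum]
    refine sum_congr rfl fun v _ => sum_congr rfl fun w _ => ?_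
    ring
  rw [e1, EM_sum2]
  refine sum_congr rfl fun v _ => ?_
  rw [EM_sum2, Finset.sum_eq_single v]
  · have e2 : (fun u => XX r b p v.1 u * XX r b p v.1 u - m v * XX r b p v.1 u - (m v * XX r b p v.1 u - m v * m v)) =
        fun u => (fun u => XX r b p v.1 u ^ 2) u - (fun u => (2 * m v) * XX r b p v.1 u - m v * m v) u := by
      funext u
      ring
    rw [e2, EM_sub', EM_sub', EM_mul', EM_const', hm]
    ring
  · intro w _ hne
    have hind := XX_indep r b hb (p := p) (v := v.1) (w := w.1) (by rw [v.2]; rfl) (by rw [w.2]; rfl) (fun h => hne (Subtype.ext h.symm))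
    rw [EM_sub', EM_sub', EM_sub', EM_mul', EM_mul', EM_const', hind, hm]
    ring
  · intro h
    exact absurd (mem_univ v) h

/-- The number of primes of degree one as a sum. -/
theorem nu_fiber (p : ℕ) (hp : p.Prime) : nu K p = ∑ v : Fb K (prm p hp), if deg v.1 = 1 then (1 : ℝ) else 0 := by
  classical
  have h1 : nu K p = (Pool.Agent.H921R2.TatePole.R K (prm p hp) : ℝ) := nu_eq (K := K) (prm p hp)
  rw [h1]
  unfold Pool.Agent.H921R2.TatePole.R
  rw [Finset.sum_boole]

/-- The terms of the mean and of the variance. -/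
theorem term_bd {C p N : ℝ} (hC : 0 ≤ C) (hp : 1 ≤ p) {r : ℕ} (hr : r ≤ 2) {m a : ℝ} (one : Prop) [Decidable one]
    (h1 : one → N = p) (h2 : ¬ one → p ^ 2 ≤ N) (hm : |m - (r + 1 / 2) / N| ≤ C / (N * √N)) (ha : |a - 1 / N| ≤ C / (N * √N)) :
    |m - (if one then (r + 1 / 2 : ℝ) / p else 0)| ≤ (C + 3) / (p * √p) ∧
    |a - m ^ 2 - (if one then 1 / p else 0)| ≤ (C + 1 + (C + 3) ^ 2) / (p * √p) := by
  have hr' : (r : ℝ) ≤ 2 := by exact_mod_cast hr
  have hr0 : (0 : ℝ) ≤ r := Nat.cast_nonneg r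
  have hp0 : 0 < p := by linarith
  have hs0 : 0 < √p := Real.sqrt_pos.2 hp0
  have hs1 : 1 ≤ √p := Real.one_le_sqrt.2 hp
  have hss : √p * √p = p := Real.mul_self_sqrt hp0.le
  have hsp : √p ≤ p := by nlinarith
  by_cases h : one
  · rw [if_pos h, if_pos h]
    have hN := h1 h
    subst hN
    refine ⟨hm.trans (div_le_div_of_nonneg_right (by linarith) (by positivity)), ?_⟩
    have hm1 : |m| ≤ (C + 3) / N := by
      have h3 : |m| ≤ |m - (r + 1 / 2) / N| + |(r + 1 / 2 : ℝ) / N| := by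
        have := abs_add_le (m - (r + 1 / 2) / N) ((r + 1 / 2 : ℝ) / N)
        rwa [sub_add_cancel] at this
      rw [abs_of_nonneg (by positivity : 0 ≤ (r + 1 / 2 : ℝ) / N)] at h3
      have h4 : C / (N * √N) ≤ C / N := div_le_div_of_nonneg_left hC hp0 (by nlinarith)
      have h5 : (r + 1 / 2 : ℝ) / N ≤ 3 / N := div_le_div_of_nonneg_right (by linarith) hp0.le
      have e : (C + 3) / N = C / N + 3 / N := by ring
      rw [e]
      linarith
    have hm2 : m ^ 2 ≤ (C + 3) ^ 2 / (N * √N) := by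
      calc m ^ 2 = |m| ^ 2 := (sq_abs m).symm
        _ ≤ ((C + 3) / N) ^ 2 := pow_le_pow_left₀ (abs_nonneg _) hm1 2
        _ = (C + 3) ^ 2 / (N * N) := by rw [div_pow, sq N]
        _ ≤ (C + 3) ^ 2 / (N * √N) := div_le_div_of_nonneg_left (by positivity) (by positivity) (by nlinarith)
    have e : a - m ^ 2 - 1 / N = (a - 1 / N) - m ^ 2 := by ring
    rw [e]
    refine (abs_sub _ _).trans ?_
    rw [abs_of_nonneg (sq_nonneg m)]
    have e2 : (C + 1 + (C + 3) ^ 2) / (N * √N) = C / (N * √N) + 1 / (N * √N) + (C + 3) ^ 2 / (N * √N) := by ring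
    have h6 : 0 ≤ 1 / (N * √N) := by positivity
    rw [e2]
    linarith
  · rw [if_neg h, if_neg h, sub_zero, sub_zero]
    have hN := h2 h
    have hN0 : 0 < N := lt_of_lt_of_le (by positivity) hN
    have hN1 : 1 ≤ N := le_trans (by nlinarith) hN
    have hsN : 1 ≤ √N := Real.one_le_sqrt.2 hN1
    have hpN : 1 / N ≤ 1 / (p * √p) := by
      apply one_div_le_one_div_of_le (by positivity)
      nlinarith
    have h4 : C / (N * √N) ≤ C / N := div_le_div_of_nonneg_left hC hN0 (by nlinarith)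
    have hm1 : |m| ≤ (C + 3) / N := by
      have h3 : |m| ≤ |m - (r + 1 / 2) / N| + |(r + 1 / 2 : ℝ) / N| := by
        have := abs_add_le (m - (r + 1 / 2) / N) ((r + 1 / 2 : ℝ) / N)
        rwa [sub_add_cancel] at this
      rw [abs_of_nonneg (by positivity : 0 ≤ (r + 1 / 2 : ℝ) / N)] at h3
      have h5 : (r + 1 / 2 : ℝ) / N ≤ 3 / N := div_le_div_of_nonneg_right (by linarith) hN0.le
      have e : (C + 3) / N = C / N + 3 / N := by ring
      rw [e]
      linarith
    have ha1 : |a| ≤ (C + 1) / N := by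
      have h3 : |a| ≤ |a - 1 / N| + |1 / N| := by
        have := abs_add_le (a - 1 / N) (1 / N)
        rwa [sub_add_cancel] at this
      rw [abs_of_nonneg (by positivity : 0 ≤ 1 / N)] at h3
      have e : (C + 1) / N = C / N + 1 / N := by ring
      rw [e]
      linarith
    refine ⟨?_, ?_⟩
    · calc |m| ≤ (C + 3) / N := hm1
        _ = (C + 3) * (1 / N) := by ring
        _ ≤ (C + 3) * (1 / (p * √p)) := by gcongr
        _ = _ := by ring
    · refine (abs_sub _ _).trans ?_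
      rw [abs_of_nonneg (sq_nonneg m)]
      have hm2 : m ^ 2 ≤ (C + 3) ^ 2 * (1 / (p * √p)) := by
        calc m ^ 2 = |m| ^ 2 := (sq_abs m).symm
          _ ≤ ((C + 3) / N) ^ 2 := pow_le_pow_left₀ (abs_nonneg _) hm1 2
          _ = (C + 3) ^ 2 * (1 / N * (1 / N)) := by field_simp
          _ ≤ (C + 3) ^ 2 * (1 / (p * √p) * 1) := by
              have : 1 / N ≤ 1 := by rw [div_le_one hN0]; exact hN1
              gcongr
          _ = _ := by ring
      have ha2 : |a| ≤ (C + 1) * (1 / (p * √p)) := by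
        calc |a| ≤ (C + 1) / N := ha1
          _ = (C + 1) * (1 / N) := by ring
          _ ≤ _ := by gcongr
      have e : (C + 1 + (C + 3) ^ 2) / (p * √p) = (C + 1) * (1 / (p * √p)) + (C + 3) ^ 2 * (1 / (p * √p)) := by ring
      rw [e]
      linarith

/-- **The mean and the variance of the local data.** -/
theorem T_moments (K : Type) [Field K] [NumberField K] (r : ℕ) (hr : r ≤ 2) : ∃ B : ℝ, 0 ≤ B ∧ ∀ (d : ℕ) (b : Fin d → 𝓞 K),
    (∀ x : 𝓞 K, ∃ a : Fin d → ℤ, x = ∑ j, (a j : 𝓞 K) * b j) → ∀ (p : ℕ) [NeZero p], p.Prime →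
    |muT r b p - (r + 1 / 2) * (nu K p / p)| ≤ B * (1 / ((p : ℝ) * √p)) ∧
    |EM p (fun u => ZT r b p u ^ 2) - nu K p / p| ≤ B * (1 / ((p : ℝ) * √p)) := by
  classical
  obtain ⟨C, hC0, hC⟩ := XX_moments r hr
  obtain ⟨D, hD⟩ : ∃ D : ℝ, D = Module.finrank ℚ K := ⟨_, rfl⟩
  have hD0 : 0 ≤ D := by rw [hD]; positivity
  have hr' : (r : ℝ) ≤ 2 := by exact_mod_cast hr
  have hr0 : (0 : ℝ) ≤ r := Nat.cast_nonneg r
  refine ⟨D * (C + 3 + (C + 1 + (C + 3) ^ 2)) + 8 * (9 * D + 145 * D + 144 * D ^ 2), by positivity, ?_⟩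
  intro d b hb p _ hp
  have hp0 : (0 : ℝ) < p := by exact_mod_cast hp.pos
  have hp1 : (1 : ℝ) ≤ p := by exact_mod_cast hp.one_le
  have hs0 : 0 < √(p : ℝ) := Real.sqrt_pos.2 hp0
  have hs1 : 1 ≤ √(p : ℝ) := Real.one_le_sqrt.2 hp1
  have hnu : nu K p ≤ D := by
    have h1 : nu K p = (Pool.Agent.H921R2.TatePole.R K (prm p hp) : ℝ) := nu_eq (K := K) (prm p hp)
    rw [h1, hD]
    exact_mod_cast Pool.Agent.H921R2.TatePole.R_le (K := K) (prm p hp)
  have hnu0 : 0 ≤ nu K p := by unfold nu; positivity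
  have hnup : 0 ≤ nu K p / p ∧ nu K p / p ≤ D := ⟨by positivity, by
    rw [div_le_iff₀ hp0]
    nlinarith⟩
  have hfrac0 : 0 ≤ 1 / ((p : ℝ) * √p) := by positivity
  rcases lt_or_ge p 5 with h5 | h5
  · -- small primes
    have hp4 : (p : ℝ) ≤ 4 := by exact_mod_cast (by omega : p ≤ 4)
    have hs2 : √(p : ℝ) ≤ 2 := by
      rw [Real.sqrt_le_iff]
      constructor <;> linarith
    have h8 : 1 ≤ 8 * (1 / ((p : ℝ) * √p)) := by
      rw [mul_one_div, le_div_iff₀ (by positivity)]
      nlinarith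
    have hmu : |muT r b p| ≤ 6 * D := by
      have h1 := muT_le r b hp
      rw [← hD] at h1
      refine h1.trans ?_
      have : 6 / √(p : ℝ) ≤ 6 := by
        rw [div_le_iff₀ hs0]
        nlinarith
      nlinarith
    have hh : ∀ u, |hT r b p u| ≤ 6 * D := by
      intro u
      have h1 := hT_le r b hp u
      rw [← hD] at h1
      refine h1.trans ?_
      have : 6 / √(p : ℝ) ≤ 6 := by
        rw [div_le_iff₀ hs0]
        nlinarith
      nlinarith
    have hZ : |EM p (fun u => ZT r b p u ^ 2)| ≤ 144 * D ^ 2 := by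
      refine (EM_abs_le p _ (fun _ => 144 * D ^ 2) fun u => ?_).trans (by rw [EM_const'])
      rw [abs_of_nonneg (sq_nonneg _), ← sq_abs]
      have h1 : |ZT r b p u| ≤ 12 * D := by
        unfold ZT
        refine (abs_sub _ _).trans ?_
        linarith [hh u]
      calc |ZT r b p u| ^ 2 ≤ (12 * D) ^ 2 := pow_le_pow_left₀ (abs_nonneg _) h1 2
        _ = 144 * D ^ 2 := by ring
    have hbig : ∀ z : ℝ, |z| ≤ 9 * D + 145 * D + 144 * D ^ 2 →
        |z| ≤ (D * (C + 3 + (C + 1 + (C + 3) ^ 2)) + 8 * (9 * D + 145 * D + 144 * D ^ 2)) * (1 / ((p : ℝ) * √p)) := by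
      intro z hz
      have h9 : 0 ≤ 9 * D + 145 * D + 144 * D ^ 2 := by positivity
      have h10 : 0 ≤ D * (C + 3 + (C + 1 + (C + 3) ^ 2)) := by positivity
      nlinarith [mul_le_mul_of_nonneg_left h8 h9, mul_nonneg h10 hfrac0]
    constructor
    · apply hbig
      refine (abs_sub _ _).trans ?_
      have : |(r + 1 / 2 : ℝ) * (nu K p / p)| ≤ 3 * D := by
        rw [abs_of_nonneg (by have := hnup.1; positivity)]
        have := hnup.2
        have := hnup.1
        nlinarith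
      nlinarith [sq_nonneg D]
    · apply hbig
      refine (abs_sub _ _).trans ?_
      rw [abs_of_nonneg hnup.1]
      have := hnup.2
      nlinarith [sq_nonneg D]
  · -- large primes
    obtain ⟨m, hm⟩ : ∃ m : Fb K (prm p hp) → ℝ, m = fun v => EM p (XX r b p v.1) := ⟨_, rfl⟩
    have hmu : muT r b p = ∑ v, m v := by
      rw [muT_eq]
      have e : hT r b p = fun u => ∑ v : Fb K (prm p hp), XX r b p v.1 u := by
        funext u
        unfold hT
        rw [dif_pos hp]
      rw [e, EM_sum2, hm]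
    have hterm : ∀ v : Fb K (prm p hp),
        |m v - (if deg v.1 = 1 then (r + 1 / 2 : ℝ) / p else 0)| ≤ (C + 3) / (p * √p) ∧
        |EM p (fun u => XX r b p v.1 u ^ 2) - m v ^ 2 - (if deg v.1 = 1 then 1 / (p : ℝ) else 0)| ≤
          (C + 1 + (C + 3) ^ 2) / (p * √p) := by
      intro v
      have hvp : (below v.1 : ℕ) = p := by rw [v.2]; rfl
      obtain ⟨h1, h2⟩ := hC K v.1 p hvp h5 d b hb
      have hN : (Ideal.absNorm v.1.asIdeal : ℝ) = (p : ℝ) ^ deg v.1 := by
        rw [norm_eq, hvp]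
        push_cast
        rfl
      rw [hm]
      refine term_bd hC0 hp1 hr (deg v.1 = 1) (fun h => ?_) (fun h => ?_) h1 h2
      · rw [hN, h, pow_one]
      · rw [hN]
        have h3 := (nm_eq v.1).2.1
        exact pow_le_pow_right₀ hp1 (by omega)
    constructor
    · have e : muT r b p - (r + 1 / 2) * (nu K p / p) = ∑ v, (m v - (if deg v.1 = 1 then (r + 1 / 2 : ℝ) / p else 0)) := by
        rw [hmu, Finset.sum_sub_distrib, nu_fiber p hp]
        congr 1
        rw [← mul_div_assoc, Finset.mul_sum, Finset.sum_div]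
        refine sum_congr rfl fun v _ => ?_
        split_ifs
        · ring
        · ring
      rw [e]
      refine (fiber_bd (prm p hp) _ (by positivity) fun v => (hterm v).1).trans ?_
      rw [← hD]
      have e2 : D * ((C + 3) / ((p : ℝ) * √p)) = D * (C + 3) * (1 / ((p : ℝ) * √p)) := by ring
      rw [e2]
      apply mul_le_mul_of_nonneg_right _ hfrac0
      nlinarith [mul_nonneg hD0 (by positivity : 0 ≤ C + 1 + (C + 3) ^ 2), sq_nonneg D]
    · have e : EM p (fun u => ZT r b p u ^ 2) - nu K p / p = ∑ v : Fb K (prm p hp),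
          (EM p (fun u => XX r b p v.1 u ^ 2) - m v ^ 2 - (if deg v.1 = 1 then 1 / (p : ℝ) else 0)) := by
        rw [var_fiber r b hb hp, nu_fiber p hp, Finset.sum_div, ← Finset.sum_sub_distrib, hm]
        refine sum_congr rfl fun v _ => ?_
        split_ifs
        · rfl
        · ring
      rw [e]
      refine (fiber_bd (prm p hp) _ (by positivity) fun v => (hterm v).2).trans ?_
      rw [← hD]
      have e2 : D * ((C + 1 + (C + 3) ^ 2) / ((p : ℝ) * √p)) = D * (C + 1 + (C + 3) ^ 2) * (1 / ((p : ℝ) * √p)) := by ring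
      rw [e2]
      apply mul_le_mul_of_nonneg_right _ hfrac0
      nlinarith [mul_nonneg hD0 (by positivity : 0 ≤ C + 3), sq_nonneg D]

end Pool.Agent.V5helper57.NFld
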